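import Pool.Agent.Lib.MP_b69f85_lc.Main

namespace Pool.Agent.Results.MP_b69f85_lc.NotSemialgebraic

open Pool.Agent.Lib.MP_b69f85_lc

/-- For every `k ≥ 4` the cone `C_k` of linear inequalities for Kolmogorov complexity that are
valid up to `O(log n)` is not semialgebraic (optimal decompressors exist). -/
theorem result : (∃ U, Optimal U) ∧ ∀ U, Optimal U → ∀ enc : List Str → Str, Computable enc →
    Function.Injective enc → ∀ k : ℕ, 4 ≤ k → ¬ SemiAlg (cone U enc k) :=
  ⟨exists_optimal, fun _ hU _ he hi _ hk => not_semiAlg_cone hU he hi hk⟩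

end Pool.Agent.Results.MP_b69f85_lc.NotSemialgebraic
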