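import Pool.Agent.Lib.MP_b69f85_lc.Main
import Pool.Agent.Lib.MP_b69f85_lc.Und

namespace Pool.Agent.Results.MP_b69f85_lc.Undecidable

open Pool.Agent.Lib.MP_b69f85_lc

/-- For every large enough fixed `k`, the set of integer vectors in the cone `C_k` is not
recursively enumerable, hence not decidable (optimal decompressors exist).  The coefficient of
the subset `u` is the entry of the list `v` at position `∑ i ∈ u, 2 ^ i`. -/
theorem result : (∃ U, Optimal U) ∧ ∃ k0 : ℕ, ∀ U, Optimal U → ∀ enc : List Str → Str,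
    Computable enc → Function.Injective enc → ∀ k : ℕ, k0 ≤ k → ¬ REPred fun v : List ℤ =>
      (fun u : {u : Finset (Fin k) // u.Nonempty} =>
        ((v.getD (∑ i ∈ u.1, 2 ^ i.val) 0 : ℤ) : ℝ)) ∈ cone U enc k :=
  ⟨exists_optimal, not_re_cone⟩

end Pool.Agent.Results.MP_b69f85_lc.Undecidable
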